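import Mathlib

set_option autoImplicit false

namespace Pool.Agent.W68.Qn

/-- Occupied coordinates (centred at the box centre). -/
noncomputable def occ (m h : ℤ) (A : Finset ℤ) : Finset ℤ :=
  (Finset.Icc (-m) m).filter (fun x => h + x ∉ A ∧ h - x ∉ A)

/-- `± A`. -/
def pm (A : Finset ℤ) : Finset ℤ := A ∪ A.image (fun a => -a)

/-- `X h A z`: `z` is (the box coordinate of) an empty line. -/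
def XX (h : ℤ) (A : Finset ℤ) (z : ℤ) : Prop := z ∈ A ∨ 2 * h - z ∈ A

structure Shape (h : ℤ) (A : Finset ℤ) : Prop where
  A0 : (0 : ℤ) ∈ A
  rng : ∀ a ∈ A, 0 ≤ a ∧ a < 2 * h
  dis : ∀ a ∈ A, 2 * h - a ∉ A
  big : h + 1 ≤ 2 * (A.card : ℤ)
  cov : ∀ a ∈ A, ∀ b ∈ A, |a - b| ∈ A ∨ |2 * h - a - b| ∈ A

structure Core (m h : ℤ) (A : Finset ℤ) (Q : Finset (ℤ × ℤ)) : Prop where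
  hm : 1 ≤ m
  hh : h ≤ m
  hm3 : 3 * m ≤ 4 * h
  sh : Shape h A
  Ac : 2 * (A.card : ℤ) = m + 1
  Qc : (Q.card : ℤ) = m
  qx : Q.image Prod.fst = occ m h A
  qy : Q.image Prod.snd = occ m h A
  qt : Q.image (fun q => q.2 - q.1) = pm A
  qs : Q.image (fun q => q.1 + q.2) = pm A

structure Box (m δ α γ : ℤ) (Q : Finset (ℤ × ℤ)) (X Y P S : Finset ℤ) : Prop where
  hm : 1 ≤ m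
  hδ : 1 ≤ δ
  hα : 0 ≤ α ∧ α + δ ≤ 2 * m
  hγ : 0 ≤ γ ∧ γ + δ ≤ 2 * m
  Qc : (Q.card : ℤ) = m
  Qr : ∀ q ∈ Q, -α ≤ q.1 ∧ q.1 ≤ 2 * m - α ∧ -γ ≤ q.2 ∧ q.2 ≤ 2 * m - γ
  ix : Set.InjOn (fun q : ℤ × ℤ => q.1) (Q : Set (ℤ × ℤ))
  iy : Set.InjOn (fun q : ℤ × ℤ => q.2) (Q : Set (ℤ × ℤ))
  it : Set.InjOn (fun q : ℤ × ℤ => q.2 - q.1) (Q : Set (ℤ × ℤ))
  is : Set.InjOn (fun q : ℤ × ℤ => q.1 + q.2) (Q : Set (ℤ × ℤ))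
  hX : X = (Finset.Icc (-α) (2 * m - α)) \ Q.image (fun q => q.1)
  hY : Y = (Finset.Icc (-γ) (2 * m - γ)) \ Q.image (fun q => q.2)
  hP : P = Q.image (fun q => q.2 - q.1)
  hS : S = Q.image (fun q => q.1 + q.2)
  x0 : (0 : ℤ) ∈ X
  xδ : δ ∈ X
  y0 : (0 : ℤ) ∈ Y
  yδ : δ ∈ Y
  Xr : ∀ x ∈ X, 0 ≤ x ∧ x ≤ δ
  Yr : ∀ y ∈ Y, 0 ≤ y ∧ y ≤ δ
  Pr : ∀ t ∈ P, -δ < t ∧ t < δ
  Sr : ∀ s ∈ S, 0 < s ∧ s < 2 * δ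
  eL : ∀ z : ℤ, 0 ≤ z → z ≤ δ → ((z ∈ Y ↔ (z ∈ P ∨ z ∈ S)) ∧ ¬ (z ∈ P ∧ z ∈ S))
  eR : ∀ z : ℤ, 0 ≤ z → z ≤ δ →
    ((δ - z ∈ Y ↔ (-z ∈ P ∨ 2 * δ - z ∈ S)) ∧ ¬ (-z ∈ P ∧ 2 * δ - z ∈ S))
  eB : ∀ z : ℤ, 0 ≤ z → z ≤ δ → ((z ∈ X ↔ (-z ∈ P ∨ z ∈ S)) ∧ ¬ (-z ∈ P ∧ z ∈ S))
  eT : ∀ z : ℤ, 0 ≤ z → z ≤ δ →
    ((δ - z ∈ X ↔ (z ∈ P ∨ 2 * δ - z ∈ S)) ∧ ¬ (z ∈ P ∧ 2 * δ - z ∈ S))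
  cov : ∀ x ∈ X, ∀ y ∈ Y, y - x ∈ P ∨ x + y ∈ S

/-- T1: Spencer–Weakley counting with equality. -/
def T1 : Prop := ∀ (n : ℕ) (D : Finset (Fin n × Fin n)), 1 < n → 2 * D.card + 1 = n →
  (∀ p : Fin n × Fin n, ∃ q ∈ D, p.1 = q.1 ∨ p.2 = q.2 ∨
    (p.1.val : ℤ) - (p.2.val : ℤ) = (q.1.val : ℤ) - (q.2.val : ℤ) ∨
    p.1.val + p.2.val = q.1.val + q.2.val) →
  ∃ (m δ α γ : ℤ) (Q : Finset (ℤ × ℤ)) (X Y P S : Finset ℤ),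
    (n : ℤ) = 2 * m + 1 ∧ Box m δ α γ Q X Y P S

/-- T2: the symmetry lemma. -/
def T2 : Prop := ∀ (δ : ℤ) (X Y P S : Finset ℤ), 1 ≤ δ →
  (0 : ℤ) ∈ X → δ ∈ X → (0 : ℤ) ∈ Y → δ ∈ Y →
  (∀ x ∈ X, 0 ≤ x ∧ x ≤ δ) → (∀ y ∈ Y, 0 ≤ y ∧ y ≤ δ) →
  (∀ t ∈ P, -δ < t ∧ t < δ) → (∀ s ∈ S, 0 < s ∧ s < 2 * δ) →
  (∀ z : ℤ, 0 ≤ z → z ≤ δ → ((z ∈ Y ↔ (z ∈ P ∨ z ∈ S)) ∧ ¬ (z ∈ P ∧ z ∈ S))) →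
  (∀ z : ℤ, 0 ≤ z → z ≤ δ →
    ((δ - z ∈ Y ↔ (-z ∈ P ∨ 2 * δ - z ∈ S)) ∧ ¬ (-z ∈ P ∧ 2 * δ - z ∈ S))) →
  (∀ z : ℤ, 0 ≤ z → z ≤ δ → ((z ∈ X ↔ (-z ∈ P ∨ z ∈ S)) ∧ ¬ (-z ∈ P ∧ z ∈ S))) →
  (∀ z : ℤ, 0 ≤ z → z ≤ δ →
    ((δ - z ∈ X ↔ (z ∈ P ∨ 2 * δ - z ∈ S)) ∧ ¬ (z ∈ P ∧ 2 * δ - z ∈ S))) →
  (∀ x ∈ X, ∀ y ∈ Y, y - x ∈ P ∨ x + y ∈ S) →
  P.card = S.card →
  (∀ t ∈ P, -t ∈ P) ∧ (∀ t : ℤ, t ∈ P ↔ δ + t ∈ S)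

/-- T3: from the symmetric box to the core structure. -/
def T3 : Prop := ∀ (m δ α γ : ℤ) (Q : Finset (ℤ × ℤ)) (X Y P S : Finset ℤ),
  Box m δ α γ Q X Y P S → (∀ t ∈ P, -t ∈ P) → (∀ t : ℤ, t ∈ P ↔ δ + t ∈ S) →
  ∃ (h : ℤ) (A : Finset ℤ) (Q' : Finset (ℤ × ℤ)), Core m h A Q'

/-- TL: the parallelogram law. -/
def TL : Prop := ∀ (m h : ℤ) (A : Finset ℤ) (Q : Finset (ℤ × ℤ)), Core m h A Q →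
  3 * ∑ a ∈ A, (a ^ 2 + 2 * (h - a) ^ 2) = m * (m + 1) * (2 * m + 1)

def IsMinX (h : ℤ) (A : Finset ℤ) (e : ℤ) : Prop :=
  0 < e ∧ XX h A e ∧ ∀ z : ℤ, 0 < z → z < e → ¬ XX h A z

def F1 (h : ℤ) (A : Finset ℤ) : Prop := ∃ l : ℤ, 2 ≤ l ∧
  (A = Finset.Icc 0 l ∨ A = insert (2 * h - l) (Finset.Icc 0 (l - 1)))

def Thirds (h : ℤ) (A : Finset ℤ) : Prop := ¬ (3 ∣ h) ∧ ∀ a ∈ A, (3 ∣ a ∨ 3 ∣ (2 * h - a))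

/-- T4I: classification when `2e` is also in X. -/
def T4I : Prop := ∀ (h : ℤ) (A : Finset ℤ) (e : ℤ), 16 ≤ h → Shape h A → IsMinX h A e →
  XX h A (2 * e) → (F1 h A ∨ (∀ a ∈ A, Even a) ∨ Thirds h A)

/-- T4II: classification when `2e` is not in X. -/
def T4II : Prop := ∀ (h : ℤ) (A : Finset ℤ) (e : ℤ), 16 ≤ h → Shape h A → IsMinX h A e →
  ¬ XX h A (2 * e) → Thirds h A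

/-- T4F3: in the thirds case all elements of A but one are multiples of 3. -/
def T4F3 : Prop := ∀ (h : ℤ) (A : Finset ℤ), 16 ≤ h → Shape h A → Thirds h A →
  ∃ z : ℤ, ∀ a ∈ A, a ≠ z → 3 ∣ a

/-- T4x1: F1 is impossible in a core. -/
def T4x1 : Prop := ∀ (m h : ℤ) (A : Finset ℤ) (Q : Finset (ℤ × ℤ)), Core m h A Q → ¬ F1 h A

/-- T4x3: the thirds case is impossible for m ≥ 17. -/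
def T4x3 : Prop := ∀ (m h : ℤ) (A : Finset ℤ) (Q : Finset (ℤ × ℤ)), Core m h A Q → 17 ≤ m →
  ∀ z : ℤ, ¬ (∀ a ∈ A, a ≠ z → 3 ∣ a)

/-- T4s: the small cases. -/
def T4s : Prop := ∀ (m h : ℤ) (A : Finset ℤ), Shape h A → h ≤ 15 → h ≤ m → 3 * m ≤ 4 * h →
  2 * (A.card : ℤ) = m + 1 →
  3 * ∑ a ∈ A, (a ^ 2 + 2 * (h - a) ^ 2) = m * (m + 1) * (2 * m + 1) → ∀ a ∈ A, Even a

/-- T5: the even case. -/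
def T5 : Prop := ∀ (m h : ℤ) (A : Finset ℤ) (Q : Finset (ℤ × ℤ)), Core m h A Q →
  (∀ a ∈ A, Even a) → m = 1 ∨ m = 5

end Pool.Agent.W68.Qn
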